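import Pool.Agent.PFC.StmtsB5d

/-!
# Squad PFC, block B5d, row LCN: the elements of a local finite-dimensional algebra
-/

set_option autoImplicit false

namespace Pool.Agent.PFC.B5c.H65

open Polynomial Pool.Agent.PFC Pool.Agent.PFC.B5c

theorem unit_of_root {F A : Type} [Field F] [Ring A] [Algebra F A] (x : A) (q : F[X])
    (hq : aeval x q = 0) (h0 : q.coeff 0 ≠ 0) : IsUnit x := by
  have h1 : aeval x q.divX * x + algebraMap F A (q.coeff 0) = 0 := by
    have h2 := congrArg (aeval x) (Polynomial.divX_mul_X_add q)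
    rw [map_add, map_mul, aeval_X, aeval_C, hq] at h2
    exact h2
  have h3 : x * aeval x q.divX = aeval x q.divX * x := by
    have h4 : aeval x (X * q.divX) = aeval x (q.divX * X) := by rw [mul_comm]
    rwa [map_mul, map_mul, aeval_X] at h4
  have h5 : aeval x q.divX * x = -algebraMap F A (q.coeff 0) := eq_neg_of_add_eq_zero_left h1
  have h6 : algebraMap F A (q.coeff 0) * algebraMap F A (q.coeff 0)⁻¹ = 1 := by
    rw [← map_mul, mul_inv_cancel₀ h0, map_one]
  have h7 : -(algebraMap F A (q.coeff 0)⁻¹) * (aeval x q.divX) * x = 1 := by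
    rw [mul_assoc, h5, neg_mul_neg, ← map_mul, inv_mul_cancel₀ h0, map_one]
  have h8 : x * (-(algebraMap F A (q.coeff 0)⁻¹) * (aeval x q.divX)) = 1 := by
    rw [neg_mul, mul_neg, ← mul_assoc, ← Algebra.commutes, mul_assoc, h3, h5, mul_neg, neg_neg,
      ← map_mul, inv_mul_cancel₀ h0, map_one]
  exact ⟨⟨x, _, h8, h7⟩, rfl⟩

theorem unit_or_nil {F A : Type} [Field F] [Ring A] [Algebra F A] [FiniteDimensional F A]
    (hA : IsLocalRing A) (x : A) : IsUnit x ∨ IsNilpotent x := by
  have hp0 : minpoly F x ≠ 0 := minpoly.ne_zero (Algebra.IsIntegral.isIntegral x)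
  obtain ⟨q, hq, hq2⟩ := Polynomial.exists_eq_pow_rootMultiplicity_mul_and_not_dvd
    (minpoly F x) hp0 0
  rw [map_zero, sub_zero] at hq hq2
  obtain ⟨k, hk⟩ : ∃ k, k = rootMultiplicity 0 (minpoly F x) := ⟨_, rfl⟩
  rw [← hk] at hq
  have h0 : q.coeff 0 ≠ 0 := fun h => hq2 (Polynomial.X_dvd_iff.2 h)
  have hco : IsCoprime (X ^ k) q :=
    IsCoprime.pow_left ((Polynomial.irreducible_X.coprime_iff_not_dvd).2 hq2)
  obtain ⟨a, b, hab⟩ := hco
  have hm : aeval x (X ^ k * q) = 0 := by
    rw [← hq]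
    exact minpoly.aeval F x
  have h1 : aeval x (a * X ^ k) + aeval x (b * q) = 1 := by
    rw [← map_add, hab, map_one]
  have h2 : aeval x (a * X ^ k) * aeval x (b * q) = 0 := by
    rw [← map_mul]
    have : a * X ^ k * (b * q) = (a * b) * (X ^ k * q) := by ring
    rw [this, map_mul, hm, mul_zero]
  rcases IsLocalRing.isUnit_or_isUnit_of_add_one h1 with h3 | h3
  · left
    have h4 : aeval x (b * q) = 0 := (IsUnit.mul_right_eq_zero h3).1 h2
    apply unit_of_root x q _ h0
    have h5 : q = q * (a * X ^ k) + q * (b * q) := by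
      rw [← mul_add, hab, mul_one]
    have h6 := congrArg (aeval x) h5
    rw [map_add, map_mul (aeval x) q (b * q), h4, mul_zero, add_zero] at h6
    rw [h6]
    have : q * (a * X ^ k) = a * (X ^ k * q) := by ring
    rw [this, map_mul, hm, mul_zero]
  · right
    have h4 : aeval x (a * X ^ k) = 0 := (IsUnit.mul_left_eq_zero h3).1 h2
    refine ⟨k, ?_⟩
    have h5 : (X : F[X]) ^ k = X ^ k * (a * X ^ k) + X ^ k * (b * q) := by
      rw [← mul_add, hab, mul_one]
    have h6 := congrArg (aeval x) h5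
    rw [map_add, map_mul (aeval x) (X ^ k) (a * X ^ k), h4, mul_zero, zero_add, map_pow,
      aeval_X] at h6
    rw [h6]
    have : X ^ k * (b * q) = b * (X ^ k * q) := by ring
    rw [this, map_mul, hm, mul_zero]

theorem lcn : LcnStmt := by
  intro F A _ _ _ _ _ hA
  refine ⟨fun x => unit_or_nil (F := F) hA x, fun x => ?_⟩
  obtain ⟨t, ht⟩ := spectrum.nonempty_of_isAlgClosed_of_finiteDimensional F x
  refine ⟨t, ?_⟩
  rcases unit_or_nil (F := F) hA (x - algebraMap F A t) with h | h
  · exfalso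
    rw [spectrum.mem_iff] at ht
    apply ht
    rw [← neg_sub]
    exact h.neg
  · exact h

end Pool.Agent.PFC.B5c.H65
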