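import Pool.Agent.PFC.StmtsB5c

/-!
# Squad PFC, block B5c, row ITW: conjugation by the unit `y`
-/

set_option autoImplicit false

namespace Pool.Agent.PFC.B5c.H65

open Pool.Agent.PFC Pool.Agent.PFC.B5c
open Pool.Agent.PFC.B5a (zin)

/-- a two-sided set of nilpotent elements in a matrix algebra is zero -/
theorem mat_nil {F : Type} [Field F] {n : ℕ} (M : Matrix (Fin n) (Fin n) F)
    (h : ∀ a b : Matrix (Fin n) (Fin n) F, ∃ N : ℕ, (a * M * b) ^ N = 0) : M = 0 := by
  by_contra hM
  obtain ⟨i, j, hij⟩ : ∃ i j, M i j ≠ 0 := by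
    by_contra hcon
    push Not at hcon
    exact hM (Matrix.ext fun i j => hcon i j)
  obtain ⟨N, hN⟩ := h (Matrix.single i i 1) (Matrix.single j i (M i j)⁻¹)
  have h1 : Matrix.single i i 1 * M * Matrix.single j i (M i j)⁻¹ =
      Matrix.single i i (1 : F) := by
    ext a b
    by_cases ha : i = a
    · by_cases hb : i = b
      · subst ha hb
        rw [Matrix.mul_single_apply_same, Matrix.single_mul_apply_same, one_mul,
          mul_inv_cancel₀ hij, Matrix.single_apply_same]
      · rw [Matrix.mul_single_apply_of_ne _ _ _ _ _ (fun h => hb h.symm),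
          Matrix.single_apply_of_col_ne _ _ hb]
    · rw [Matrix.mul_assoc, Matrix.single_mul_apply_of_ne _ _ _ _ _ (fun h => ha h.symm),
        Matrix.single_apply_of_row_ne ha]
  rw [h1] at hN
  have h2 : ∀ k : ℕ, (Matrix.single i i (1 : F)) ^ (k + 1) = Matrix.single i i (1 : F) := by
    intro k
    induction k with
    | zero => rw [zero_add, pow_one]
    | succ k ih => rw [pow_succ, ih, Matrix.single_mul_single_same, one_mul]
  have h3 := h2 N
  rw [pow_succ, hN, zero_mul] at h3
  have h4 := congrFun (congrFun h3 i) i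
  rw [Matrix.single_apply_same] at h4
  exact zero_ne_one h4

theorem core {F B B' : Type} [Field F] [Ring B] [Algebra F B] [Ring B'] [Algebra F B'] {n n' : ℕ}
    (π : B →ₐ[F] Matrix (Fin n) (Fin n) F) (π' : B' →ₐ[F] Matrix (Fin n') (Fin n') F)
    (C : B →ₐ[F] B') (hs : Function.Surjective π)
    (hnil : ∀ b : B, π' (C b) = 0 → ∃ N : ℕ, π b ^ N = 0) (b : B) (hb : π' (C b) = 0) :
    π b = 0 := by
  apply mat_nil
  intro x z
  obtain ⟨x', rfl⟩ := hs x
  obtain ⟨z', rfl⟩ := hs z
  obtain ⟨N, hN⟩ := hnil (x' * b * z') (by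
    rw [map_mul, map_mul, map_mul, map_mul, hb, mul_zero, zero_mul])
  refine ⟨N, ?_⟩
  rw [map_mul, map_mul] at hN
  exact hN

theorem iso_of {F B B' : Type} [Field F] [Ring B] [Algebra F B] [Ring B'] [Algebra F B'] {n n' : ℕ}
    (π : B →ₐ[F] Matrix (Fin n) (Fin n) F) (π' : B' →ₐ[F] Matrix (Fin n') (Fin n') F)
    (C : B →ₐ[F] B') (hC : Function.Surjective C) (hs : Function.Surjective π)
    (hs' : Function.Surjective π') (h : ∀ b, π b = 0 ↔ π' (C b) = 0) :
    ∃ e : Matrix (Fin n) (Fin n) F ≃ₐ[F] Matrix (Fin n') (Fin n') F, ∀ b, e (π b) = π' (C b) := by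
  have hk : ∀ b, π' (C (Function.surjInv hs (π b))) = π' (C b) := by
    intro b
    have h1 : π (Function.surjInv hs (π b) - b) = 0 := by
      rw [map_sub, Function.surjInv_eq hs, sub_self]
    have h2 := (h _).1 h1
    rw [map_sub, map_sub] at h2
    exact sub_eq_zero.1 h2
  let f : Matrix (Fin n) (Fin n) F →ₐ[F] Matrix (Fin n') (Fin n') F :=
    { toFun := fun m => π' (C (Function.surjInv hs m))
      map_one' := by
        have h1 := hk 1
        rw [map_one, map_one, map_one] at h1
        exact h1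
      map_mul' := by
        intro a b
        obtain ⟨a, rfl⟩ := hs a
        obtain ⟨b, rfl⟩ := hs b
        rw [hk a, hk b, ← map_mul, hk, map_mul, map_mul]
      map_zero' := by
        have h1 := hk 0
        rw [map_zero, map_zero, map_zero] at h1
        exact h1
      map_add' := by
        intro a b
        obtain ⟨a, rfl⟩ := hs a
        obtain ⟨b, rfl⟩ := hs b
        rw [hk a, hk b, ← map_add, hk, map_add, map_add]
      commutes' := by
        intro r
        have h1 := hk (algebraMap F B r)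
        rw [AlgHom.commutes, AlgHom.commutes, AlgHom.commutes] at h1
        exact h1 }
  have hf : ∀ b, f (π b) = π' (C b) := hk
  have hbij : Function.Bijective f := by
    constructor
    · rw [injective_iff_map_eq_zero]
      intro a ha
      obtain ⟨a, rfl⟩ := hs a
      rw [hf] at ha
      exact (h a).2 ha
    · intro m
      obtain ⟨b', rfl⟩ := hs' m
      obtain ⟨b, rfl⟩ := hC b'
      exact ⟨π b, hf b⟩
  exact ⟨AlgEquiv.ofBijective f hbij, hf⟩

section conj
variable {F V A : Type} [Field F] [CommGroup V] [Ring A] [Algebra F A] (α : V →* A)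
    (σ : MulAut V) (y y' : A)

theorem conj_cj (h1 : y * y' = 1) (h2 : y' * y = 1) (h3 : ∀ u, y * α u = α (σ u) * y) (u : V)
    (a : A) : y * cj F α u a * y' = cj F α (σ u) (y * a * y') := by
  have e1 : ∀ (w : V) (b : A), cj F α w b = α w * (b * α w⁻¹) := fun w b => rfl
  have e2 : α u⁻¹ * y' = y' * α (σ u)⁻¹ := by
    have h4 := h3 u⁻¹
    have h5 : σ u⁻¹ = (σ u)⁻¹ := map_inv σ u
    rw [h5] at h4
    calc α u⁻¹ * y' = (y' * y) * (α u⁻¹ * y') := by rw [h2, one_mul]
      _ = y' * ((y * α u⁻¹) * y') := by simp only [mul_assoc]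
      _ = y' * ((α (σ u)⁻¹ * y) * y') := by rw [h4]
      _ = y' * α (σ u)⁻¹ * (y * y') := by simp only [mul_assoc]
      _ = y' * α (σ u)⁻¹ := by rw [h1, mul_one]
  rw [e1, e1]
  calc y * (α u * (a * α u⁻¹)) * y' = (y * α u) * a * (α u⁻¹ * y') := by simp only [mul_assoc]
    _ = (α (σ u) * y) * a * (y' * α (σ u)⁻¹) := by rw [h3, e2]
    _ = α (σ u) * (y * a * y' * α (σ u)⁻¹) := by simp only [mul_assoc]

theorem conj_fx (h1 : y * y' = 1) (h2 : y' * y = 1) (h3 : ∀ u, y * α u = α (σ u) * y)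
    (P : Subgroup V) (m : A) (hm : m ∈ Fx (cj F α) P) :
    y * m * y' ∈ Fx (cj F α) (P.map σ.toMonoidHom) := by
  rintro _ ⟨u, hu, rfl⟩
  have h4 := conj_cj (F := F) α σ y y' h1 h2 h3 u m
  rw [hm u hu] at h4
  exact h4.symm

theorem tv_map [DecidableEq V] {P' P : Subgroup V} {S : Finset V} (h : IsTv P' P S) :
    IsTv (P'.map σ.toMonoidHom) (P.map σ.toMonoidHom) (S.image σ) := by
  refine ⟨?_, ?_⟩
  · intro s hs
    obtain ⟨x, hx, rfl⟩ := Finset.mem_image.1 hs
    exact ⟨x, h.1 x hx, rfl⟩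
  · rintro _ ⟨p, hp, rfl⟩
    obtain ⟨s, ⟨hs1, hs2⟩, hs3⟩ := h.2 p hp
    refine ⟨σ s, ⟨Finset.mem_image_of_mem _ hs1, ⟨s⁻¹ * p, hs2, ?_⟩⟩, ?_⟩
    · show σ (s⁻¹ * p) = (σ s)⁻¹ * σ p
      rw [map_mul, map_inv]
    · rintro t ⟨ht1, ht2⟩
      obtain ⟨x, hx, rfl⟩ := Finset.mem_image.1 ht1
      obtain ⟨z, hz, hz2⟩ := ht2
      have h5 : z = x⁻¹ * p := by
        apply σ.injective
        rw [map_mul, map_inv]
        exact hz2
      rw [h5] at hz
      rw [hs3 x ⟨hx, hz⟩]

theorem conj_bk (h1 : y * y' = 1) (h2 : y' * y = 1) (h3 : ∀ u, y * α u = α (σ u) * y)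
    (P : Subgroup V) (m : A) (hm : m ∈ BK (cj F α) P) :
    y * m * y' ∈ BK (cj F α) (P.map σ.toMonoidHom) := by
  classical
  refine Submodule.span_induction (p := fun m _ => y * m * y' ∈
    BK (cj F α) (P.map σ.toMonoidHom)) ?_ ?_ ?_ ?_ hm
  · rintro n ⟨P', S, m, hP, hS, hm, rfl⟩
    apply Submodule.subset_span
    refine ⟨P'.map σ.toMonoidHom, S.image σ, y * m * y', ?_, tv_map σ hS,
      conj_fx α σ y y' h1 h2 h3 P' m hm, ?_⟩
    · exact (Subgroup.map_lt_map_iff_of_injective σ.injective).2 hP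
    · rw [Finset.sum_image (fun a _ b _ hab => σ.injective hab), Finset.mul_sum, Finset.sum_mul]
      exact Finset.sum_congr rfl fun x _ => conj_cj α σ y y' h1 h2 h3 x m
  · rw [mul_zero, zero_mul]
    exact Submodule.zero_mem _
  · intro a b _ _ ha hb
    rw [mul_add, add_mul]
    exact Submodule.add_mem _ ha hb
  · intro c a _ ha
    rw [mul_smul_comm, smul_mul_assoc]
    exact Submodule.smul_mem _ c ha

theorem conj_cz (h1 : y * y' = 1) (h2 : y' * y = 1) (h3 : ∀ u, y * α u = α (σ u) * y)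
    (Q : Subgroup V) (a : A) (ha : a ∈ Cz F α Q) :
    y * a * y' ∈ Cz F α (Q.map σ.toMonoidHom) := by
  rw [Cz, Subalgebra.mem_centralizer_iff] at ha ⊢
  rintro _ ⟨_, ⟨u, hu, rfl⟩, rfl⟩
  have h4 := ha (α u) ⟨u, hu, rfl⟩
  show α (σ u) * (y * a * y') = y * a * y' * α (σ u)
  have h5 : α u * y' = y' * α (σ u) := by
    calc α u * y' = (y' * y) * (α u * y') := by rw [h2, one_mul]
      _ = y' * ((y * α u) * y') := by simp only [mul_assoc]
      _ = y' * ((α (σ u) * y) * y') := by rw [h3]
      _ = y' * α (σ u) * (y * y') := by simp only [mul_assoc]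
      _ = y' * α (σ u) := by rw [h1, mul_one]
  calc α (σ u) * (y * a * y') = (α (σ u) * y) * a * y' := by simp only [mul_assoc]
    _ = (y * α u) * a * y' := by rw [h3]
    _ = y * (α u * a) * y' := by simp only [mul_assoc]
    _ = y * (a * α u) * y' := by rw [h4]
    _ = y * a * (α u * y') := by simp only [mul_assoc]
    _ = y * a * (y' * α (σ u)) := by rw [h5]
    _ = y * a * y' * α (σ u) := by simp only [mul_assoc]

theorem swap_rel (h1 : y * y' = 1) (h2 : y' * y = 1) (h3 : ∀ u, y * α u = α (σ u) * y) (u : V) :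
    y' * α u = α (σ⁻¹ u) * y' := by
  have h4 := h3 (σ⁻¹ u)
  rw [MulAut.apply_inv_self] at h4
  calc y' * α u = y' * α u * (y * y') := by rw [h1, mul_one]
    _ = y' * (α u * y) * y' := by simp only [mul_assoc]
    _ = y' * (y * α (σ⁻¹ u)) * y' := by rw [h4]
    _ = (y' * y) * α (σ⁻¹ u) * y' := by simp only [mul_assoc]
    _ = α (σ⁻¹ u) * y' := by rw [h2, one_mul]

theorem map_map_inv (Q : Subgroup V) :
    (Q.map σ.toMonoidHom).map (σ⁻¹ : MulAut V).toMonoidHom = Q := by
  ext v
  constructor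
  · rintro ⟨_, ⟨u, hu, rfl⟩, rfl⟩
    have : (σ⁻¹ : MulAut V).toMonoidHom (σ.toMonoidHom u) = u := MulAut.inv_apply_self V σ u
    rw [this]
    exact hu
  · intro hv
    exact ⟨σ v, ⟨v, hv, rfl⟩, MulAut.inv_apply_self V σ v⟩

end conj

theorem itw : ItwStmt := by
  intro F V A _ _ _ _ _ α σ y y' Q n n' π π' h1 h2 h3 hL hL'
  have h3' := swap_rel α σ y y' h1 h2 h3
  let c : A →ₐ[F] A :=
    { toFun := fun a => y * a * y'
      map_one' := by rw [mul_one, h1]
      map_mul' := by
        intro a b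
        calc y * (a * b) * y' = y * a * (1 * (b * y')) := by rw [one_mul]; simp only [mul_assoc]
          _ = y * a * y' * (y * b * y') := by rw [← h2]; simp only [mul_assoc]
      map_zero' := by rw [mul_zero, zero_mul]
      map_add' := by
        intro a b
        rw [mul_add, add_mul]
      commutes' := by
        intro r
        show y * algebraMap F A r * y' = algebraMap F A r
        rw [← Algebra.commutes, mul_assoc, h1, mul_one] }
  have hc : ∀ a, c a = y * a * y' := fun a => rfl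
  have hcz : ∀ a : Cz F α Q, c a ∈ Cz F α (Q.map σ.toMonoidHom) := fun a =>
    conj_cz α σ y y' h1 h2 h3 Q a a.2
  let C : Cz F α Q →ₐ[F] Cz F α (Q.map σ.toMonoidHom) :=
    (c.comp (Cz F α Q).val).codRestrict (Cz F α (Q.map σ.toMonoidHom)) hcz
  have hC : ∀ a, (C a : A) = y * a * y' := fun a => rfl
  have hback : ∀ a : A, y' * (y * a * y') * y = a := by
    intro a
    calc y' * (y * a * y') * y = (y' * y) * a * (y' * y) := by simp only [mul_assoc]
      _ = a := by rw [h2, one_mul, mul_one]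
  have hforth : ∀ a : A, y * (y' * a * y) * y' = a := by
    intro a
    calc y * (y' * a * y) * y' = (y * y') * a * (y * y') := by simp only [mul_assoc]
      _ = a := by rw [h1, one_mul, mul_one]
  have hCs : Function.Surjective C := by
    intro b
    have h4 := conj_cz (F := F) α σ⁻¹ y' y h2 h1 h3' (Q.map σ.toMonoidHom) b b.2
    rw [map_map_inv] at h4
    exact ⟨⟨y' * b * y, h4⟩, Subtype.ext (hforth b)⟩
  have hker : ∀ b, π b = 0 ↔ π' (C b) = 0 := by
    intro b
    constructor
    · intro hb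
      -- the map in the other direction
      have hinj : Function.Injective C := by
        intro a a' haa
        have h5 := congrArg (fun z : Cz F α (Q.map σ.toMonoidHom) => y' * (z : A) * y) haa
        simp only [hC, hback] at h5
        exact Subtype.ext h5
      let D : Cz F α (Q.map σ.toMonoidHom) →ₐ[F] Cz F α Q :=
        ((AlgEquiv.ofBijective C ⟨hinj, hCs⟩).symm : _ ≃ₐ[F] _).toAlgHom
      have hD : ∀ a, D (C a) = a := fun a =>
        (AlgEquiv.ofBijective C ⟨hinj, hCs⟩).symm_apply_apply a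
      have hCD : ∀ a, C (D a) = a := fun a =>
        (AlgEquiv.ofBijective C ⟨hinj, hCs⟩).apply_symm_apply a
      refine core π' π D hL'.sur ?_ (C b) (by rw [hD]; exact hb)
      intro b' hb'
      obtain ⟨N, hN⟩ := hL.nil (D b') hb'
      refine ⟨N, ?_⟩
      have h6 := conj_bk (F := F) α σ y y' h1 h2 h3 Q _ hN
      rw [← map_pow]
      apply hL'.bk
      have h7 : ((b' ^ N : Cz F α (Q.map σ.toMonoidHom)) : A) = y * ((D b' : A) ^ N) * y' := by
        have h8 : b' ^ N = C (D b' ^ N) := by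
          rw [map_pow, hCD]
        rw [h8, hC]
        rfl
      rw [h7]
      exact h6
    · intro hb
      refine core π π' C hL.sur ?_ b hb
      intro b' hb'
      obtain ⟨N, hN⟩ := hL'.nil (C b') hb'
      refine ⟨N, ?_⟩
      have h6 := conj_bk (F := F) α σ⁻¹ y' y h2 h1 h3' (Q.map σ.toMonoidHom) _ hN
      rw [map_map_inv] at h6
      rw [← map_pow]
      apply hL.bk
      have h7 : ((b' ^ N : Cz F α Q) : A) = y' * ((C b' : A) ^ N) * y := by
        have h8 : (C b' : A) ^ N = y * ((b' ^ N : Cz F α Q) : A) * y' := by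
          rw [← hC, map_pow]
          rfl
        rw [h8, hback]
      rw [h7]
      exact h6
  obtain ⟨e, he⟩ := iso_of π π' C hCs hL.sur hL'.sur hker
  refine ⟨e, fun v => ?_⟩
  show e (π (zin F α Q v)) = π' (zin F α (Q.map σ.toMonoidHom) (σ v))
  rw [he]
  congr 1
  apply Subtype.ext
  rw [hC]
  show y * α v * y' = α (σ v)
  rw [h3, mul_assoc, h1, mul_one]

end Pool.Agent.PFC.B5c.H65
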